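import Mathlib

/-!
# Compatible straightening laws for disjoint unions of chains (MP_9c3df6_al)

Let `P` be a finite disjoint union of chains.  Every compatible monomial algebra with straightening
laws on the lattice `J(P)` of poset ideals has the straightening relations
`φ(I) φ(I') = φ(I ∩ I') φ(I ∪ I')`, those of the toric ring of the order polytope.

Proof.  Let `φ(I) φ(I') = φ(J) φ(J')`, `J ⊆ I ∩ I'`, `J' ⊇ I ∪ I'`, and suppose that
`z ∈ (I ∩ I') \ J`.  In the chain of `z` one of `I`, `I'` is contained in the other, say `I` in `I'`.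
Put `y = {x ∈ I : z ≰ x}`.  Then `J ≤ y < I`, `y ∪ I' = I ∪ I'` and `y`, `I'` are incomparable, so that
`φ(y) φ(I') = φ(A) φ(B)` with `A ≤ y ∩ I' ≤ I` and `B ≥ y ∪ I' ≥ I`.  Hence
`φ(J) φ(y) φ(J') = φ(y) φ(I) φ(I') = φ(A) φ(I) φ(B)` are two equal standard monomials, so `y = I`, a
contradiction.  The case `z ∈ J' \ (I ∪ I')` is dual.
-/

set_option autoImplicit false

namespace Pool.Agent.Results.MP_9c3df6_al.UniqueCompatible

open MvPolynomial

/-- `P` is a disjoint union of chains: it is the disjoint union of the classes of a map `c`, elements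
of the same class are comparable and elements of different classes are incomparable. -/
def IsDisjointUnionOfChains (P : Type) [PartialOrder P] : Prop :=
  ∃ (ι : Type) (c : P → ι), ∀ a b : P, c a = c b ↔ (a ≤ b ∨ b ≤ a)

/-- The generator `w_I t` of the toric ring `K[Ω] ⊆ S = K[x_i (i : σ), t]`, where `w_I` is a monomial
in the `x_i`, given by its exponent vector. The variable `t` is `X none`. -/
noncomputable def gen (K : Type) [Field K] {σ L : Type} (w : L → σ →₀ ℕ) (I : L) :
    MvPolynomial (Option σ) K :=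
  monomial ((w I).mapDomain some) 1 * X none

/-- The toric ring `K[Ω]`, generated over `K` by the `w_I t`. -/
noncomputable def toricRing (K : Type) [Field K] {σ L : Type} (w : L → σ →₀ ℕ) :
    Subalgebra K (MvPolynomial (Option σ) K) :=
  Algebra.adjoin K (Set.range (gen K w))

/-- The map `φ : L → K[Ω]`, `I ↦ w_I t`. -/
noncomputable def phi (K : Type) [Field K] {σ L : Type} (w : L → σ →₀ ℕ) (I : L) : toricRing K w :=
  ⟨gen K w I, Algebra.subset_adjoin ⟨I, rfl⟩⟩

/-- Standard monomials are indexed by multichains: multisets of elements of `L` that are pairwise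
comparable. -/
def Multichain (L : Type) [PartialOrder L] : Type :=
  {m : Multiset L // ∀ a ∈ m, ∀ b ∈ m, a ≤ b ∨ b ≤ a}

/-- The standard monomial of a multichain. -/
def stdMonomial {R L : Type} [CommRing R] [PartialOrder L] (φ : L → R) (m : Multichain L) : R :=
  (m.1.map φ).prod

/-- `R` is an algebra with straightening laws on the poset `L` over `K` through `φ : L → R`:
`φ` is injective, the standard monomials form a `K`-basis, and if `α`, `β` are incomparable and
`φ(α) φ(β) = ∑ r_m m` is the expansion of the product in distinct standard monomials, then the smallest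
factor of each `m` with `r_m ≠ 0` is below `α` and `β`.  (For the toric rings `K[Ω]` below, the grading
is the one by the degree in `t`; `φ(α)` has degree one and the part of degree zero is `K`.) -/
def IsASL (K : Type) [Field K] {R L : Type} [CommRing R] [Algebra K R] [PartialOrder L]
    (φ : L → R) : Prop :=
  Function.Injective φ ∧
  LinearIndependent K (stdMonomial (R := R) φ) ∧
  Submodule.span K (Set.range (stdMonomial (R := R) φ)) = ⊤ ∧
  ∀ α β : L, ¬ α ≤ β → ¬ β ≤ α → ∀ r : Multichain L →₀ K,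
    φ α * φ β = r.sum (fun m c => c • stdMonomial φ m) →
    ∀ m ∈ r.support, ∃ γ ∈ m.1, (∀ δ ∈ m.1, γ ≤ δ) ∧ γ ≤ α ∧ γ ≤ β

/-- The monomials `w_I` define a compatible algebra with straightening laws `K[Ω]` on `J(P)`. -/
def IsCompatibleASL (K : Type) [Field K] {σ P : Type} [PartialOrder P]
    (w : LowerSet P → σ →₀ ℕ) : Prop :=
  IsASL K (phi K w) ∧
  ∀ I I' : LowerSet P, ¬ I ≤ I' → ¬ I' ≤ I → ∃ J J' : LowerSet P,
    J ≤ I ⊓ I' ∧ I ⊔ I' ≤ J' ∧ phi K w I * phi K w I' = phi K w J * phi K w J'

/-- The straightening relations of two (compatible) algebras with straightening laws on `J(P)`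
coincide. -/
def SameRelations (K : Type) [Field K] {σ τ P : Type} [PartialOrder P]
    (w : LowerSet P → σ →₀ ℕ) (v : LowerSet P → τ →₀ ℕ) : Prop :=
  ∀ I I' : LowerSet P, ¬ I ≤ I' → ¬ I' ≤ I → ∀ J J' : LowerSet P, J ≤ J' →
    (phi K w I * phi K w I' = phi K w J * phi K w J' ↔
      phi K v I * phi K v I' = phi K v J * phi K v J')

open Classical in
/-- The monomials of the toric ring `K[𝒪(P)]` of the order polytope: `w_I = ∏_{p ∈ I} x_p`. -/
noncomputable def orderMonomial {P : Type} [PartialOrder P] [Finite P] (I : LowerSet P) : P →₀ ℕ :=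
  Finsupp.equivFunOnFinite.symm (fun p => if p ∈ I then 1 else 0)

section Core

variable {K R P : Type} [Field K] [CommRing R] [Algebra K R] [PartialOrder P]

/-- A three-element multichain. -/
def mc3 {L : Type} [PartialOrder L] (a b c : L) (hab : a ≤ b) (hbc : b ≤ c) : Multichain L :=
  ⟨{a, b, c}, by
    intro x hx y hy
    simp only [Multiset.insert_eq_cons, Multiset.mem_cons, Multiset.mem_singleton] at hx hy
    rcases hx with rfl | rfl | rfl <;> rcases hy with rfl | rfl | rfl <;>
      simp [hab, hbc, hab.trans hbc]⟩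

theorem mc3_mid {L : Type} [PartialOrder L] {a b c a' b' c' : L} (hab : a ≤ b) (hbc : b ≤ c)
    (hab' : a' ≤ b') (hbc' : b' ≤ c')
    (h : ({a, b, c} : Multiset L) = {a', b', c'}) : b = b' := by
  have hp : List.Perm [a, b, c] [a', b', c'] := by
    rw [← Multiset.coe_eq_coe]
    exact h
  have h1 : List.Pairwise (· ≤ ·) [a, b, c] := by
    simp [hab, hbc, hab.trans hbc]
  have h2 : List.Pairwise (· ≤ ·) [a', b', c'] := by
    simp [hab', hbc', hab'.trans hbc']
  have h3 := List.Perm.eq_of_pairwise (fun a b _ _ => le_antisymm) h1 h2 hp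
  simp only [List.cons.injEq] at h3
  exact h3.2.1

theorem std_inj {L : Type} [PartialOrder L] {φ : L → R}
    (hli : LinearIndependent K (stdMonomial (R := R) φ))
    {a b c a' b' c' : L} (hab : a ≤ b) (hbc : b ≤ c) (hab' : a' ≤ b') (hbc' : b' ≤ c')
    (h : φ a * φ b * φ c = φ a' * φ b' * φ c') : b = b' := by
  have h1 : stdMonomial φ (mc3 a b c hab hbc) = stdMonomial φ (mc3 a' b' c' hab' hbc') := by
    unfold stdMonomial mc3
    simp only [Multiset.insert_eq_cons, Multiset.map_cons, Multiset.map_singleton,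
      Multiset.prod_cons, Multiset.prod_singleton]
    rw [← mul_assoc, ← mul_assoc]
    exact h
  have h2 := hli.injective h1
  exact mc3_mid hab hbc hab' hbc' (congrArg Subtype.val h2)

/-- The straightening relations are forced. -/
theorem forced (hP : IsDisjointUnionOfChains P) {φ : LowerSet P → R}
    (hli : LinearIndependent K (stdMonomial (R := R) φ))
    (hcomp : ∀ I I' : LowerSet P, ¬ I ≤ I' → ¬ I' ≤ I → ∃ J J' : LowerSet P,
      J ≤ I ⊓ I' ∧ I ⊔ I' ≤ J' ∧ φ I * φ I' = φ J * φ J')
    {I I' J J' : LowerSet P} (h1 : ¬ I ≤ I') (h2 : ¬ I' ≤ I) (hJ : J ≤ I ⊓ I') (hJ' : I ⊔ I' ≤ J')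
    (h : φ I * φ I' = φ J * φ J') : J = I ⊓ I' ∧ J' = I ⊔ I' := by
  obtain ⟨ι, c, hc⟩ := hP
  -- the lower part, under the assumption that `I` is smaller in the chain of `z`
  have lower : ∀ (I I' : LowerSet P), ¬ I ≤ I' → ¬ I' ≤ I → J ≤ I ⊓ I' → I ⊔ I' ≤ J' →
      φ I * φ I' = φ J * φ J' → ∀ z, z ∈ I → z ∉ J → (∀ x ∈ I, c x = c z → x ∈ I') → False := by
    intro I I' h1 h2 hJ hJ' h z hzI hzJ hch
    let y : LowerSet P := ⟨{x | x ∈ I ∧ ¬ z ≤ x}, by
      intro a b hba ha
      exact ⟨I.lower hba ha.1, fun hz => ha.2 (hz.trans hba)⟩⟩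
    have hy : ∀ x, x ∈ y ↔ x ∈ I ∧ ¬ z ≤ x := fun x => Iff.rfl
    have hJI : J ≤ I := hJ.trans inf_le_left
    have hIJ' : I ≤ J' := le_sup_left.trans hJ'
    have hyI : y ≤ I := fun x hx => ((hy x).1 hx).1
    have hJy : J ≤ y := fun x hx => (hy x).2 ⟨hJI hx, fun hz => hzJ (J.lower hz hx)⟩
    have hsup : I ≤ y ⊔ I' := by
      intro x hx
      by_cases hz : z ≤ x
      · exact Or.inr (hch x hx ((hc x z).2 (Or.inr hz)))
      · exact Or.inl ((hy x).2 ⟨hx, hz⟩)
    have hy1 : ¬ y ≤ I' := by
      intro hle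
      apply h1
      exact hsup.trans (sup_le hle le_rfl)
    have hy2 : ¬ I' ≤ y := fun hle => h2 (hle.trans hyI)
    obtain ⟨A, B, hA, hB, hAB⟩ := hcomp y I' hy1 hy2
    have hAI : A ≤ I := (hA.trans inf_le_left).trans hyI
    have hIB : I ≤ B := hsup.trans hB
    have e : y = I := by
      apply std_inj hli hJy (hyI.trans hIJ') hAI hIB
      calc φ J * φ y * φ J' = φ y * (φ J * φ J') := by ring
        _ = φ y * (φ I * φ I') := by rw [h]
        _ = (φ y * φ I') * φ I := by ring
        _ = φ A * φ I * φ B := by rw [hAB]; ring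
    have hzy : z ∈ y := by rw [e]; exact hzI
    exact ((hy z).1 hzy).2 le_rfl
  have upper : ∀ (I I' : LowerSet P), ¬ I ≤ I' → ¬ I' ≤ I → J ≤ I ⊓ I' → I ⊔ I' ≤ J' →
      φ I * φ I' = φ J * φ J' → ∀ z, z ∉ I → z ∈ J' → (∀ x ∈ I', c x = c z → x ∈ I) → False := by
    intro I I' h1 h2 hJ hJ' h z hzI hzJ hch
    let y : LowerSet P := ⟨{x | x ∈ I ∨ x ≤ z}, by
      intro a b hba ha
      rcases ha with ha | ha
      · exact Or.inl (I.lower hba ha)
      · exact Or.inr (hba.trans ha)⟩
    have hy : ∀ x, x ∈ y ↔ x ∈ I ∨ x ≤ z := fun x => Iff.rfl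
    have hJI : J ≤ I := hJ.trans inf_le_left
    have hIJ' : I ≤ J' := le_sup_left.trans hJ'
    have hIy : I ≤ y := fun x hx => (hy x).2 (Or.inl hx)
    have hyJ' : y ≤ J' := by
      intro x hx
      rcases (hy x).1 hx with hx | hx
      · exact hIJ' hx
      · exact J'.lower hx hzJ
    have hinf : y ⊓ I' ≤ I := by
      intro x hx
      rcases (hy x).1 hx.1 with hx' | hx'
      · exact hx'
      · exact hch x hx.2 ((hc x z).2 (Or.inl hx'))
    have hy1 : ¬ y ≤ I' := fun hle => h1 (hIy.trans hle)
    have hy2 : ¬ I' ≤ y := by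
      intro hle
      apply h2
      exact (le_inf hle le_rfl).trans hinf
    obtain ⟨A, B, hA, hB, hAB⟩ := hcomp y I' hy1 hy2
    have hAI : A ≤ I := hA.trans hinf
    have hIB : I ≤ B := (hIy.trans le_sup_left).trans hB
    have e : y = I := by
      apply std_inj hli (hJI.trans hIy) hyJ' hAI hIB
      calc φ J * φ y * φ J' = φ y * (φ J * φ J') := by ring
        _ = φ y * (φ I * φ I') := by rw [h]
        _ = (φ y * φ I') * φ I := by ring
        _ = φ A * φ I * φ B := by rw [hAB]; ring
    apply hzI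
    have hzy : z ∈ y := (hy z).2 (Or.inr le_rfl)
    rwa [e] at hzy
  -- in every chain one of the two ideals is contained in the other
  have hdich : ∀ z : P, (∀ x ∈ I, c x = c z → x ∈ I') ∨ (∀ x ∈ I', c x = c z → x ∈ I) := by
    intro z
    by_contra hno
    push Not at hno
    obtain ⟨⟨x, hx, hxz, hx'⟩, ⟨x', hxI', hxz', hxI⟩⟩ := hno
    rcases (hc x x').1 (hxz.trans hxz'.symm) with hle | hle
    · exact hx' (I'.lower hle hxI')
    · exact hxI (I.lower hle hx)
  have hJs : J ≤ I' ⊓ I := by rw [inf_comm]; exact hJ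
  have hJs' : I' ⊔ I ≤ J' := by rw [sup_comm]; exact hJ'
  have hs : φ I' * φ I = φ J * φ J' := by rw [mul_comm]; exact h
  constructor
  · apply le_antisymm hJ
    intro z hz
    by_contra hzJ
    rcases hdich z with hd | hd
    · exact lower I I' h1 h2 hJ hJ' h z hz.1 hzJ hd
    · exact lower I' I h2 h1 hJs hJs' hs z hz.2 hzJ hd
  · apply le_antisymm _ hJ'
    intro z hz
    by_contra hzI
    have hzI1 : z ∉ I := fun hh => hzI (Or.inl hh)
    have hzI2 : z ∉ I' := fun hh => hzI (Or.inr hh)
    rcases hdich z with hd | hd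
    · exact upper I' I h2 h1 hJs hJs' hs z hzI2 hz hd
    · exact upper I I' h1 h2 hJ hJ' h z hzI1 hz hd

end Core

open Classical in
theorem indicator_pair {a b c d : Prop}
    (h : (if a then 1 else 0) + (if b then 1 else 0) =
      (if c then 1 else 0) + (if d then (1 : ℕ) else 0)) (hcd : c → d) :
    (c ↔ a ∧ b) ∧ (d ↔ a ∨ b) := by
  by_cases ha : a <;> by_cases hb : b <;> by_cases hc : c <;> by_cases hd : d <;> simp_all

/-- Products of generators. -/
theorem phi_mul_eq_iff {K σ L : Type} [Field K] (w : L → σ →₀ ℕ) (I I' J J' : L) :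
    phi K w I * phi K w I' = phi K w J * phi K w J' ↔ w I + w I' = w J + w J' := by
  have hgen : ∀ A B : L, gen K w A * gen K w B =
      monomial ((w A + w B).mapDomain some + (Finsupp.single none 1 + Finsupp.single none 1))
        (1 : K) := by
    intro A B
    unfold gen
    rw [X, Finsupp.mapDomain_add, monomial_mul, monomial_mul, monomial_mul, add_add_add_comm]
    simp only [mul_one]
  have h1 : phi K w I * phi K w I' = phi K w J * phi K w J' ↔
      gen K w I * gen K w I' = gen K w J * gen K w J' := by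
    rw [Subtype.ext_iff]
    rfl
  rw [h1, hgen, hgen]
  constructor
  · intro h
    have h2 := (monomial_left_inj (one_ne_zero (α := K))).1 h
    have h3 := add_right_cancel h2
    exact Finsupp.mapDomain_injective (Option.some_injective σ) h3
  · intro h
    rw [h]

/-- Let `P` be a finite disjoint union of chains and let the monomials `w_I` (`I` a poset ideal of `P`)
define a compatible algebra with straightening laws `K[Ω]` on `J(P)` over `K`.  Then its straightening
relations coincide with those of the toric ring `K[𝒪(P)]` of the order polytope, and they read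
`φ(I) φ(I') = φ(I ∩ I') φ(I ∪ I')`. -/
theorem result (K : Type) [Field K] (P : Type) [PartialOrder P] [Finite P]
    (hP : IsDisjointUnionOfChains P) (σ : Type) [Finite σ] (w : LowerSet P → σ →₀ ℕ)
    (hw : IsCompatibleASL K w) :
    SameRelations K w (orderMonomial (P := P)) ∧
    ∀ I I' : LowerSet P, phi K w I * phi K w I' = phi K w (I ⊓ I') * phi K w (I ⊔ I') := by
  obtain ⟨⟨_, hli, _, _⟩, hcomp⟩ := hw
  have hinc : ∀ I I' : LowerSet P, ¬ I ≤ I' → ¬ I' ≤ I →
      phi K w I * phi K w I' = phi K w (I ⊓ I') * phi K w (I ⊔ I') := by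
    intro I I' h1 h2
    obtain ⟨J, J', hJ, hJ', h⟩ := hcomp I I' h1 h2
    obtain ⟨e1, e2⟩ := forced hP hli hcomp h1 h2 hJ hJ' h
    rw [h, e1, e2]
  refine ⟨?_, ?_⟩
  · intro I I' h1 h2 J J' hJJ'
    have hO : ∀ A B C D : LowerSet P,
        phi K (orderMonomial (P := P)) A * phi K (orderMonomial (P := P)) B =
          phi K (orderMonomial (P := P)) C * phi K (orderMonomial (P := P)) D ↔
        orderMonomial A + orderMonomial B = orderMonomial C + orderMonomial D :=
      fun A B C D => phi_mul_eq_iff _ A B C D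
    rw [hO]
    have hcoef : ∀ (A B : LowerSet P) (p : P), (orderMonomial A + orderMonomial B) p =
        (open Classical in if p ∈ A then 1 else 0) + (open Classical in if p ∈ B then 1 else 0) := by
      intro A B p
      rfl
    constructor
    · intro h
      -- `J` and `J'` are the meet and the join
      have h3 : phi K w (I ⊓ I') * phi K w (I ⊔ I') = phi K w J * phi K w J' := by
        rw [← hinc I I' h1 h2, h]
      have h4 : (I ⊓ I' = J) ∧ (I ⊔ I' = J') := by
        have hb : (⊥ : LowerSet P) ≤ I ⊓ I' := bot_le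
        have hb' : (⊥ : LowerSet P) ≤ J := bot_le
        have ht : I ⊔ I' ≤ (⊤ : LowerSet P) := le_top
        have ht' : J' ≤ (⊤ : LowerSet P) := le_top
        have hm : I ⊓ I' ≤ I ⊔ I' := (inf_le_left (b := I')).trans le_sup_left
        refine ⟨std_inj hli hb hm hb' hJJ' ?_, std_inj hli hm ht hJJ' ht' ?_⟩
        · rw [mul_assoc, h3, mul_assoc]
        · rw [h3]
      obtain ⟨rfl, rfl⟩ := h4
      ext p
      rw [hcoef, hcoef]
      by_cases hp : p ∈ I <;> by_cases hp' : p ∈ I' <;> simp [hp, hp']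
    · intro h
      have h7 : ∀ p, (p ∈ J ↔ p ∈ I ∧ p ∈ I') ∧ (p ∈ J' ↔ p ∈ I ∨ p ∈ I') := by
        intro p
        have h5 := DFunLike.congr_fun h p
        rw [hcoef, hcoef] at h5
        exact indicator_pair h5 (fun hh => hJJ' hh)
      have h4 : J = I ⊓ I' ∧ J' = I ⊔ I' :=
        ⟨SetLike.ext fun p => (h7 p).1, SetLike.ext fun p => (h7 p).2⟩
      rw [h4.1, h4.2]
      exact hinc I I' h1 h2
  · intro I I'
    by_cases h1 : I ≤ I'
    · rw [inf_eq_left.2 h1, sup_eq_right.2 h1]
    · by_cases h2 : I' ≤ I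
      · rw [inf_eq_right.2 h2, sup_eq_left.2 h2, mul_comm]
      · exact hinc I I' h1 h2

end Pool.Agent.Results.MP_9c3df6_al.UniqueCompatible
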